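import Pool.Agent.Helper91.TC.Enclosure
import Pool.Agent.Helper21.TC.ProbBasic
import Pool.Agent.Helper21.TC.Wall

/-!
Module M8c: the origin is unlikely to become green after a late time, uniformly in the density.
-/

set_option autoImplicit false

open MeasureTheory Filter Topology

namespace Pool.Agent.Helper69.TC

/-- Deterministic part: a late green origin forces one of the three bad events. -/
theorem late_bad {ω : (Site → Option Color) × (Site × ℕ → Ranking)} {p K : ℝ} {L : ℕ} (hL : 1 ≤ L)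
    (hK : ((L + 20 * L + 4 : ℕ) : ℝ) ≤ K / √p) (h1 : EventuallyGreen ω) (h2 : ¬ GreenBy p K ω) :
    TwoSeeds (20 * L + L + 4) ω.1 ∨ EmptySquare (20 * L) (2 * L) ω.1 ∨ LateWall L (20 * L) ω := by
  by_contra hcon
  push Not at hcon
  obtain ⟨hA, hB, hC⟩ := hcon
  rw [eventuallyGreen_iff] at h1
  obtain ⟨n, hn⟩ := h1
  refine enclosure (growth_run ω.1 ω.2) (L := L) (S := 2 * L) (D := 20 * L) (R := 20 * L + L + 4)
    (by omega) le_rfl ?_ ?_ ?_ ?_ ?_ n hn
  · intro x x' y hx hx' hy hs hs'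
    by_contra hne
    exact hA (Or.inl ⟨x, x', y, hx, hx', hy, hne, hs, hs'⟩)
  · intro x y y' hx hy hy' hs hs'
    by_contra hne
    exact hA (Or.inr ⟨x, y, y', hx, hy, hy', hne, hs, hs'⟩)
  · intro z hz1 hz2 k hk1 hk2
    constructor
    · intro h
      exact hC ⟨z, hz1, hz2, k, hk1, hk2, Or.inl h⟩
    · intro h
      exact hC ⟨z, hz1, hz2, k, hk1, hk2, Or.inr h⟩
  · intro z hz1 hz2
    by_contra hno
    apply hB
    refine ⟨z, hz1, hz2, ?_⟩
    intro w hw1 hw2 hw3 hw4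
    by_contra hne
    exact hno ⟨w, hne, hw1, hw2, hw3, hw4⟩
  · intro k hk hgr
    apply h2
    refine ⟨k, le_trans ?_ hK, hgr.1⟩
    exact_mod_cast hk

theorem exists_m {δ : ℝ} (h0 : 0 < δ) (h1 : δ < 1) {η : ℝ} (hη : 0 < η) (C : ℝ) :
    ∃ m : ℕ, 1849 * Real.exp (-((m : ℝ) + 1)) ≤ η ∧
      C * ((m : ℝ) + 1) ^ 2 * (1 - δ) ^ m ≤ η := by
  have hA : Tendsto (fun m : ℕ => 1849 * Real.exp (-((m : ℝ) + 1))) atTop (𝓝 0) := by
    have : Tendsto (fun m : ℕ => Real.exp (-((m : ℝ) + 1))) atTop (𝓝 0) := by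
      refine Real.tendsto_exp_atBot.comp ?_
      refine tendsto_neg_atTop_atBot.comp ?_
      exact tendsto_atTop_add_const_right _ _ tendsto_natCast_atTop_atTop
    simpa using this.const_mul 1849
  have hr0 : 0 < 1 - δ := by linarith
  have hB : Tendsto (fun m : ℕ => C * ((m : ℝ) + 1) ^ 2 * (1 - δ) ^ m) atTop (𝓝 0) := by
    have h := tendsto_pow_const_mul_const_pow_of_lt_one 2 hr0.le (by linarith : 1 - δ < 1)
    have h' := (tendsto_add_atTop_iff_nat 1).mpr h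
    have h'' := h'.const_mul (C / (1 - δ))
    rw [mul_zero] at h''
    refine h''.congr ?_
    intro m
    push_cast
    field_simp
    ring
  obtain ⟨m, hm⟩ := ((hA.eventually (gt_mem_nhds hη)).and (hB.eventually (gt_mem_nhds hη))).exists
  exact ⟨m, hm.1.le, hm.2.le⟩

theorem late_unlikely {c : ℝ} (hc : 0 < c) {η : ℝ} (hη : 0 < η) :
    ∃ K : ℝ, 0 < K ∧ ∀ᶠ p : ℝ in 𝓝[>] 0,
      (law p (c * p)).real {ω | EventuallyGreen ω ∧ ¬ GreenBy p K ω} ≤ η := by
  obtain ⟨δ, hδ0, hδ1, hwall⟩ := lateWall_le hc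
  obtain ⟨m, hm1, hm2⟩ := exists_m hδ0 hδ1 (by positivity : 0 < η / 3) (4 * 1325 ^ 2)
  set M : ℝ := (m : ℝ) + 1 with hM
  have hM1 : 1 ≤ M := by rw [hM]; linarith [Nat.cast_nonneg (α := ℝ) m]
  refine ⟨340 * M, by positivity, ?_⟩
  have e1 : ∀ᶠ p : ℝ in 𝓝[>] 0, 0 < p := eventually_mem_nhdsWithin
  have e2 : ∀ᶠ p : ℝ in 𝓝[>] 0, p < 1 / (2 + c) :=
    mem_nhdsWithin_of_mem_nhds (gt_mem_nhds (by positivity))
  have e3 : ∀ᶠ p : ℝ in 𝓝[>] 0, 2 * (700 * M) ^ 3 * √p < η / 3 := by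
    have : Tendsto (fun p : ℝ => 2 * (700 * M) ^ 3 * √p) (𝓝 0) (𝓝 (2 * (700 * M) ^ 3 * √0)) :=
      ((Real.continuous_sqrt.tendsto 0).const_mul _)
    rw [Real.sqrt_zero, mul_zero] at this
    exact mem_nhdsWithin_of_mem_nhds (this (gt_mem_nhds (by positivity : 0 < η / 3)))
  filter_upwards [e1, e2, e3, hwall] with p hp0 hp1 hp3 hpw
  have hc2 : 0 < 2 + c := by linarith
  have hpc : (2 + c) * p ≤ 1 := by
    rw [lt_div_iff₀ hc2] at hp1; nlinarith
  have hple : p ≤ 1 := by nlinarith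
  have hs0 : 0 < √p := Real.sqrt_pos.mpr hp0
  have hs1 : √p ≤ 1 := Real.sqrt_le_one.mpr hple
  have hsq : √p * √p = p := Real.mul_self_sqrt hp0.le
  have hinv : 1 ≤ 1 / √p := by rw [le_div_iff₀ hs0]; linarith
  set t : ℕ := ⌈1 / √p⌉₊ with ht
  have ht1 : 1 / √p ≤ (t : ℝ) := Nat.le_ceil _
  have ht2 : (t : ℝ) ≤ 2 / √p := by
    have h := Nat.ceil_lt_add_one (by positivity : 0 ≤ 1 / √p)
    rw [← ht] at h
    have : 2 / √p = 1 / √p + 1 / √p := by ring
    linarith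
  set L : ℕ := 8 * t * (m + 1) with hL
  have hLr : (L : ℝ) = 8 * t * M := by rw [hL, hM]; push_cast; ring
  have hL1 : 8 * M / √p ≤ (L : ℝ) := by
    rw [hLr]
    have : 8 * M / √p = 8 * (1 / √p) * M := by ring
    rw [this]; gcongr
  have hL2 : (L : ℝ) ≤ 16 * M / √p := by
    rw [hLr]
    have : 16 * M / √p = 8 * (2 / √p) * M := by ring
    rw [this]; gcongr
  have hMs : M ≤ M / √p := by
    rw [le_div_iff₀ hs0]; nlinarith
  have h1s : 1 ≤ M / √p := le_trans hM1 hMs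
  have hLpos : 1 ≤ L := by
    have : (1 : ℝ) ≤ (L : ℝ) := by
      refine le_trans ?_ hL1
      have : 8 * M / √p = 8 * (M / √p) := by ring
      rw [this]; linarith
    exact_mod_cast this
  have h16 : 16 * M / √p = 16 * (M / √p) := by ring
  have hK : ((L + 20 * L + 4 : ℕ) : ℝ) ≤ 340 * M / √p := by
    push_cast
    have h340 : 340 * M / √p = 340 * (M / √p) := by ring
    rw [h340]; rw [h16] at hL2
    linarith
  have := (isProb hp0.le (by positivity : 0 ≤ c * p) (by linarith : 2 * p + c * p ≤ 1)).2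
  have hsub : {ω : (Site → Option Color) × (Site × ℕ → Ranking) |
      EventuallyGreen ω ∧ ¬ GreenBy p (340 * M) ω} ⊆
      {ω | TwoSeeds (20 * L + L + 4) ω.1} ∪
        ({ω | EmptySquare (20 * L) (2 * L) ω.1} ∪ {ω | LateWall L (20 * L) ω}) := by
    rintro ω ⟨hω1, hω2⟩
    exact late_bad hLpos hK hω1 hω2
  have hu := (measureReal_mono (μ := law p (c * p)) hsub (measure_ne_top _ _)).trans
    ((measureReal_union_le _ _).trans (add_le_add_right (measureReal_union_le _ _) _))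
  have b1 : (law p (c * p)).real {ω | TwoSeeds (20 * L + L + 4) ω.1} ≤ η / 3 := by
    refine (twoSeeds_le hp0.le (by positivity) (by linarith) _).trans ?_
    have hR : (2 * ((20 * L + L + 4 : ℕ) : ℝ) + 1) ≤ 700 * M * (1 / √p) := by
      push_cast
      have : 700 * M * (1 / √p) = 700 * (M / √p) := by ring
      rw [this]; rw [h16] at hL2
      linarith
    have : 2 * (2 * ((20 * L + L + 4 : ℕ) : ℝ) + 1) ^ 3 * p ^ 2 ≤
        2 * (700 * M * (1 / √p)) ^ 3 * p ^ 2 := by gcongr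
    refine this.trans ?_
    have heq : 2 * (700 * M * (1 / √p)) ^ 3 * p ^ 2 = 2 * (700 * M) ^ 3 * √p := by
      have : p ^ 2 = √p ^ 4 := by
        rw [← hsq]; ring_nf
        rw [Real.sq_sqrt hp0.le]
      rw [this]
      field_simp
    rw [heq]; exact hp3.le
  have b2 : (law p (c * p)).real {ω | EmptySquare (20 * L) (2 * L) ω.1} ≤ η / 3 := by
    refine (emptySquare_le hp0.le (by positivity) (by linarith) (N := 20)
      (by omega) le_rfl).trans ?_
    refine le_trans ?_ hm1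
    have h43 : ((2 * (20 : ℕ) + 3 : ℝ)) ^ 2 = 1849 := by norm_num
    rw [h43]
    have h0 : 0 ≤ 1 - 2 * p - c * p := by linarith
    have hexp : (1 - 2 * p - c * p) ≤ Real.exp (-((2 + c) * p)) := by
      have := Real.add_one_le_exp (-((2 + c) * p)); linarith
    have hpow : (1 - 2 * p - c * p) ^ (L ^ 2) ≤ Real.exp (-((2 + c) * p)) ^ (L ^ 2) := by gcongr
    rw [← Real.exp_nat_mul] at hpow
    have hle : Real.exp (((L ^ 2 : ℕ) : ℝ) * -((2 + c) * p)) ≤ Real.exp (-M) := by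
      apply Real.exp_le_exp.mpr
      push_cast
      have hLL : 64 * M ^ 2 ≤ p * (L : ℝ) ^ 2 := by
        have : 64 * M ^ 2 = p * (8 * M / √p) ^ 2 := by
          rw [div_pow, Real.sq_sqrt hp0.le]; field_simp; norm_num
        rw [this]; gcongr
      have h5 : M ≤ 64 * M ^ 2 := by nlinarith
      have h6 : p * (L : ℝ) ^ 2 ≤ (2 + c) * (p * (L : ℝ) ^ 2) := by
        have : 0 ≤ p * (L : ℝ) ^ 2 := by positivity
        nlinarith
      linarith
    linarith
  have b3 : (law p (c * p)).real {ω | LateWall L (20 * L) ω} ≤ η / 3 := by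
    refine (hpw m (20 * L)).trans ?_
    refine le_trans ?_ hm2
    have hr0 : 0 ≤ 1 - δ := by linarith
    have hb : (2 * (8 * (t : ℝ) * ((m : ℝ) + 1) + 2 * ((20 * L : ℕ) : ℝ) + 6) + 1) ≤
        1325 * M * (1 / √p) := by
      have h8 : 8 * (t : ℝ) * ((m : ℝ) + 1) = (L : ℝ) := by rw [hLr]
      rw [h8]; push_cast
      have : 1325 * M * (1 / √p) = 1325 * (M / √p) := by ring
      rw [this]; rw [h16] at hL2
      linarith
    have h9 : 4 * (2 * (8 * (t : ℝ) * ((m : ℝ) + 1) + 2 * ((20 * L : ℕ) : ℝ) + 6) + 1) ^ 2 *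
        (p * (1 - δ) ^ m) ≤ 4 * (1325 * M * (1 / √p)) ^ 2 * (p * (1 - δ) ^ m) := by gcongr
    refine h9.trans (le_of_eq ?_)
    have : (1325 * M * (1 / √p)) ^ 2 = 1325 ^ 2 * M ^ 2 / p := by
      rw [mul_pow, mul_pow, div_pow, Real.sq_sqrt hp0.le]; ring
    rw [this]
    field_simp
  linarith

end Pool.Agent.Helper69.TC
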